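import Pool.Agent.N219.HL.Final

/-!
# Generic upper metric mean dimension in `L_α` on the torus: disproof for `α > 1 - 1/m`

The definitions are in `Pool/Agent/N219/HL/Defs.lean`.

Idea of the proof.  Let `S` be a homeomorphism of `𝕋^m` with `α`-Hölder constant `C`, and divide
the torus into cubes of side `1/M`.  If a cube `Q'` meets `S(Q)`, then either `Q'` meets `S(∂Q)`, and
this happens for at most `O(M^{(1/α-1)(m-1)})` cubes `Q'`, or, `Q'` being connected,
`S⁻¹(Q') ⊆ Q`, and this happens for boundedly many `Q` when `Q'` is given.  As `S(Q)` meets at most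
`O(M^{(1-α)m})` cubes, a block of `k+1` transitions has at most
`O(M^m + M^{k(1-α)m + (1/α-1)(m-1)})` possibilities.  For `α > 1 - 1/m` and `k ≥ 1/(1-α)` the
exponential rate is smaller than `(1-α)m`.  The bound is uniform in `S` and passes to limits.
-/

open scoped NNReal

namespace Pool.Agent.Results.MP_74738e_an.TorusHighExponent

open Pool.Agent.N219.HL

/-- For the torus `X = 𝕋^m`, `m ≥ 2`, and `1 - 1/m < α < 1`: there is `θ < (1 - α) m` such that
every `T ∈ L_α` has upper metric mean dimension at most `θ`; and so the set of `T ∈ L_α` with upper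
metric mean dimension equal to `(1 - α) m = (1 - α) dim X` is not residual in `L_α`. -/
theorem result (m : ℕ) (hm : 2 ≤ m) (α : ℝ≥0) (h1 : (1 : ℝ) - 1 / m < α) (h2 : α < 1) :
    (∃ θ : ℝ, θ < (1 - (α : ℝ)) * m ∧ ∀ T ∈ Lalpha m α, upperMdim T.1 ≤ (θ : EReal)) ∧
    {T : Lalpha m α | upperMdim T.1.1 = (((1 - (α : ℝ)) * m : ℝ) : EReal)} ∉
      residual (Lalpha m α) :=
  ⟨uniform_gap hm h1 h2, not_residual hm h1 h2⟩

end Pool.Agent.Results.MP_74738e_an.TorusHighExponent
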